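import Pool.Agent.Helper86.TK.Defs

namespace Pool.Agent.Helper86.TK

open Set Filter Topology

/-- value of `S` at one node is a bounded multiple of a coordinate (or zero) -/
theorem fl2_val {Γ : Type} {r : Γ → ℕ → Bool} {η : Γ → ℝ} (hP : Par r η) {G : Set Γ} {f : Γ → ℕ}
    (hS : Sep r G f) (hV : ST_SVAL) (t : T) :
    (∃ (x : Γ) (κ : ℝ), |κ| ≤ 1 ∧ ∀ a : Γ → ℝ, S r η G f a t = κ * a x) ∨
      ∀ a, S r η G f a t = 0 := by
  rcases hV Γ r η G f hS t with ⟨x, _, _, h⟩ | ⟨_, h⟩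
  · refine Or.inl ⟨x, η x, ?_, fun a => by rw [h a]; ring⟩
    rw [abs_of_pos (hP.2 x).1]; exact (hP.2 x).2
  · exact Or.inr h

theorem fl2_add {Γ : Type} {r : Γ → ℕ → Bool} {η : Γ → ℝ} (hP : Par r η) {G : Set Γ} {f : Γ → ℕ}
    (hS : Sep r G f) (hV : ST_SVAL) (t : T) (a b : Γ → ℝ) :
    S r η G f (a + b) t = S r η G f a t + S r η G f b t := by
  rcases fl2_val hP hS hV t with ⟨x, κ, _, h⟩ | h
  · rw [h, h, h, Pi.add_apply]; ring
  · rw [h, h, h]; ring

theorem fl2_smul {Γ : Type} {r : Γ → ℕ → Bool} {η : Γ → ℝ} (hP : Par r η) {G : Set Γ} {f : Γ → ℕ}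
    (hS : Sep r G f) (hV : ST_SVAL) (t : T) (k : ℝ) (a : Γ → ℝ) :
    S r η G f (k • a) t = k * S r η G f a t := by
  rcases fl2_val hP hS hV t with ⟨x, κ, _, h⟩ | h
  · rw [h, h, Pi.smul_apply, smul_eq_mul]; ring
  · rw [h, h]; ring

theorem fl2_bd {Γ : Type} {r : Γ → ℕ → Bool} {η : Γ → ℝ} (hP : Par r η) {G : Set Γ} {f : Γ → ℕ}
    (hS : Sep r G f) (hV : ST_SVAL) (t : T) (a : E2 Γ) :
    |S r η G f a t| ≤ ‖a‖ := by
  rcases fl2_val hP hS hV t with ⟨x, κ, hκ, h⟩ | h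
  · rw [h, abs_mul]
    have h1 : ‖a x‖ ≤ ‖a‖ := lp.norm_apply_le_norm (by norm_num) a x
    rw [Real.norm_eq_abs] at h1
    calc |κ| * |a x| ≤ 1 * ‖a‖ := mul_le_mul hκ h1 (abs_nonneg _) zero_le_one
      _ = ‖a‖ := one_mul _
  · rw [h, abs_zero]; exact norm_nonneg _

theorem st_FL2 (hV : ST_SVAL) (hI : ST_INX) : ST_FL2 := by
  intro Γ r η hP G₀ G₁ f g hG hf hg φ ε hε
  classical
  -- the closed subspace of the vectors supported in `G₀ ∪ G₁`
  let H : Submodule ℝ (E2 Γ) :=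
    { carrier := {a | ∀ x, x ∉ G₀ ∪ G₁ → a x = 0}
      add_mem' := by
        intro a b ha hb x hx
        rw [lp.coeFn_add, Pi.add_apply, ha x hx, hb x hx, add_zero]
      zero_mem' := by
        intro x _; rfl
      smul_mem' := by
        intro k a ha x hx
        rw [lp.coeFn_smul, Pi.smul_apply, ha x hx, smul_zero] }
  have hcoord : ∀ x : Γ, Continuous fun a : E2 Γ => a x := by
    intro x
    refine (LipschitzWith.of_dist_le_mul (K := 1) fun a b => ?_).continuous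
    rw [NNReal.coe_one, one_mul, dist_eq_norm, dist_eq_norm]
    have h := lp.norm_apply_le_norm (p := 2) (by norm_num) (a - b) x
    rwa [lp.coeFn_sub, Pi.sub_apply] at h
  have hHc : IsClosed (H : Set (E2 Γ)) := by
    have : (H : Set (E2 Γ)) = ⋂ x : {x // x ∉ G₀ ∪ G₁}, {a : E2 Γ | a x.1 = 0} := by
      ext a
      simp only [mem_iInter, mem_setOf_eq, Subtype.forall]
      rfl
    rw [this]
    exact isClosed_iInter fun x => isClosed_eq (hcoord x.1) continuous_const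
  haveI : CompleteSpace H := hHc.completeSpace_coe
  have hSSb : ∀ (a : E2 Γ) (t : T), |SS r η G₀ G₁ f g a t| ≤ 2 * ‖a‖ := by
    intro a t
    have h1 := fl2_bd hP hf hV t a
    have h2 := fl2_bd hP hg hV t a
    calc |SS r η G₀ G₁ f g a t| ≤ |S r η G₀ f a t| + |S r η G₁ g a t| := abs_add_le _ _
      _ ≤ 2 * ‖a‖ := by linarith
  have hmem : ∀ a : E2 Γ, Memℓp (SS r η G₀ G₁ f g a) ⊤ := by
    intro a
    refine memℓp_infty ⟨2 * ‖a‖, ?_⟩
    rintro _ ⟨t, rfl⟩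
    exact hSSb a t
  have hin : ∀ a : H, ((a.1, (⟨SS r η G₀ G₁ f g a.1, hmem a.1⟩ : Ei)) : Amb Γ) ∈ XX r η := by
    intro a
    refine hI Γ r η hP G₀ G₁ f g hG hf hg a.1 _ a.2 ?_
    have : (fun t => (⟨SS r η G₀ G₁ f g a.1, hmem a.1⟩ : Ei) t - SS r η G₀ G₁ f g a.1 t) =
        fun _ => (0 : ℝ) := by
      funext t
      exact sub_self _
    rw [this]
    exact tendsto_const_nhds
  let V : H →ₗ[ℝ] XX r η :=
    { toFun := fun a => ⟨(a.1, (⟨SS r η G₀ G₁ f g a.1, hmem a.1⟩ : Ei)), hin a⟩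
      map_add' := by
        intro a b
        apply Subtype.ext
        refine Prod.ext rfl ?_
        apply lp.ext
        funext t
        change SS r η G₀ G₁ f g (⇑(a.1 + b.1)) t = SS r η G₀ G₁ f g a.1 t + SS r η G₀ G₁ f g b.1 t
        unfold SS
        rw [lp.coeFn_add, fl2_add hP hf hV, fl2_add hP hg hV]
        ring
      map_smul' := by
        intro k a
        apply Subtype.ext
        refine Prod.ext rfl ?_
        apply lp.ext
        funext t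
        change SS r η G₀ G₁ f g (⇑(k • a.1)) t = k • SS r η G₀ G₁ f g a.1 t
        unfold SS
        rw [lp.coeFn_smul, fl2_smul hP hf hV, fl2_smul hP hg hV, smul_eq_mul]
        ring }
  have hVn : ∀ a : H, ‖V a‖ ≤ 2 * ‖a‖ := by
    intro a
    change ‖((a.1, (⟨SS r η G₀ G₁ f g a.1, hmem a.1⟩ : Ei)) : Amb Γ)‖ ≤ 2 * ‖a.1‖
    rw [Prod.norm_def]
    refine max_le ?_ ?_
    · have := norm_nonneg a.1
      change ‖a.1‖ ≤ 2 * ‖a.1‖
      linarith
    · exact lp.norm_le_of_forall_le (by positivity) (hSSb a.1)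
  let ψ : StrongDual ℝ H := φ.comp (V.mkContinuous 2 hVn)
  obtain ⟨w, hw⟩ : ∃ w : H, ∀ a : H, φ (V a) = inner ℝ w a :=
    ⟨(InnerProductSpace.toDual ℝ H).symm ψ, fun a => by
      rw [InnerProductSpace.toDual_symm_apply]; rfl⟩
  have hsum : HasSum (fun x => lp.single 2 x (w.1 x)) w.1 := lp.hasSum_single (by norm_num) w.1
  obtain ⟨F, hF⟩ : ∃ F : Finset Γ, ‖w.1 - ∑ x ∈ F, lp.single 2 x (w.1 x)‖ ≤ ε / 4 := by
    have h := (Metric.tendsto_atTop.1 hsum (ε / 4) (by positivity))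
    obtain ⟨F, hF⟩ := h
    refine ⟨F, ?_⟩
    have := hF F le_rfl
    rw [dist_eq_norm, norm_sub_rev] at this
    exact this.le
  set C : ℝ := ∑ x ∈ F, |w.1 x| with hC
  have hC0 : 0 ≤ C := Finset.sum_nonneg fun _ _ => abs_nonneg _
  refine ⟨F, ε / (2 * (C + 1)), by positivity, ?_⟩
  intro p hp hsupp hFp hpS
  have hpV : p = V ⟨p.1.1, hsupp⟩ := by
    apply Subtype.ext
    refine Prod.ext rfl ?_
    apply lp.ext
    funext t
    exact hpS t
  rw [hpV, hw]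
  change |inner ℝ w.1 p.1.1| ≤ ε
  have hdec : inner ℝ w.1 p.1.1 =
      inner ℝ (w.1 - ∑ x ∈ F, lp.single 2 x (w.1 x)) p.1.1 + ∑ x ∈ F, w.1 x * p.1.1 x := by
    rw [inner_sub_left, sum_inner]
    have : ∀ x ∈ F, inner ℝ (lp.single 2 x (w.1 x)) p.1.1 = w.1 x * p.1.1 x := by
      intro x _
      rw [lp.inner_single_left]
      simp [mul_comm]
    rw [Finset.sum_congr rfl this]
    ring
  rw [hdec]
  have h1 : |inner ℝ (w.1 - ∑ x ∈ F, lp.single 2 x (w.1 x)) p.1.1| ≤ ε / 4 * 2 := by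
    refine (abs_real_inner_le_norm _ _).trans ?_
    exact mul_le_mul hF hp (norm_nonneg _) (by positivity)
  have h2 : |∑ x ∈ F, w.1 x * p.1.1 x| ≤ ε / 2 := by
    calc |∑ x ∈ F, w.1 x * p.1.1 x| ≤ ∑ x ∈ F, |w.1 x * p.1.1 x| := Finset.abs_sum_le_sum_abs _ _
      _ ≤ ∑ x ∈ F, |w.1 x| * (ε / (2 * (C + 1))) := by
          refine Finset.sum_le_sum fun x hx => ?_
          rw [abs_mul]
          exact mul_le_mul_of_nonneg_left (hFp x hx) (abs_nonneg _)
      _ = C * (ε / (2 * (C + 1))) := by rw [← Finset.sum_mul]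
      _ ≤ ε / 2 := by
          have : C * (ε / (2 * (C + 1))) = ε / 2 * (C / (C + 1)) := by
            field_simp
          rw [this]
          have h3 : C / (C + 1) ≤ 1 := by
            rw [div_le_one (by positivity)]; linarith
          nlinarith [h3]
  calc _ ≤ |inner ℝ (w.1 - ∑ x ∈ F, lp.single 2 x (w.1 x)) p.1.1| + |∑ x ∈ F, w.1 x * p.1.1 x| :=
        abs_add_le _ _
    _ ≤ ε := by linarith

end Pool.Agent.Helper86.TK
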